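import Mathlib

set_option autoImplicit false
open Matrix Finset

namespace Pool.Agent.Results.MP_513688_co.Counter

/-- The diagonal entry (i, i) of the exponential series of β A. -/
noncomputable def expDiag {n : ℕ} (A : Matrix (Fin n) (Fin n) ℝ) (β : ℂ) (i : Fin n) : ℂ :=
  ∑' r : ℕ, β ^ r * ((A ^ r) i i : ℝ) / r.factorial

def Diagonalizable {n : ℕ} (A : Matrix (Fin n) (Fin n) ℝ) : Prop :=
  ∃ (P : Matrix (Fin n) (Fin n) ℂ) (d : Fin n → ℂ), IsUnit P ∧
    A.map Complex.ofReal * P = P * diagonal d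

def B : Matrix (Fin 4) (Fin 4) ℤ := !![1, 1, 2, 0; 2, 0, 1, 1; 0, 2, 1, 1; 1, 1, 0, 2]

theorem pw (r : ℕ) : B ^ (r + 3) = (4 ^ r : ℤ) • of fun _ _ => 16 := by
  induction r with
  | zero => decide +kernel
  | succ r ih =>
    rw [show r + 1 + 3 = r + 3 + 1 by rfl, pow_succ, ih, smul_mul_assoc, pow_succ, mul_smul]
    congr 1
    decide +kernel

theorem result : ¬ ∀ (n : ℕ) (A : Matrix (Fin n) (Fin n) ℝ) (β : ℂ) (i j : Fin n),
    (∀ u v, 0 ≤ A u v ∧ IsAlgebraic ℚ (A u v)) → ¬ Diagonalizable A → β ≠ 0 → IsAlgebraic ℚ β →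
    expDiag A β i = expDiag A β j → ∀ r : ℕ, (A ^ r) i i = (A ^ r) j j := by
  intro h
  have e : ∀ r i, ((Int.castRingHom ℝ).mapMatrix B ^ r) i i = ((B ^ r) i i : ℤ) := fun r i => by
    rw [← map_pow]; rfl
  have := h 4 ((Int.castRingHom ℝ).mapMatrix B) 1 0 1 (fun u v => ⟨by
    simpa using (show ∀ u v, 0 ≤ B u v by decide) u v, isAlgebraic_intCast _⟩) ?_ one_ne_zero
    isAlgebraic_one ?_ 1
  · simp [B] at this
  · rintro ⟨P, d, hP, hd⟩
    have c : ((Int.castRingHom ℝ).mapMatrix B).map Complex.ofReal =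
      (Int.castRingHom ℂ).mapMatrix B := by ext; simp
    rw [c] at hd
    set M := (Int.castRingHom ℂ).mapMatrix B with hM
    have h1 : M * (M * (M * (M * P))) = 4 • (M * (M * (M * P))) := by
      simp only [← mul_assoc]
      rw [← smul_mul_assoc, hM, ← map_mul, ← map_mul, ← map_mul, ← map_nsmul]
      congr 2
      decide +kernel
    simp only [hd, ← mul_assoc] at h1
    simp only [mul_assoc, ← mul_smul_comm, hP.mul_right_inj, diagonal_mul_diagonal] at h1
    have h2 : diagonal d * diagonal d = 4 • diagonal d := by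
      rw [diagonal_mul_diagonal, ← diagonal_smul]
      congr 1
      funext i
      have := congrFun (congrFun h1 i) i
      simp at this ⊢
      rcases this with h | h
      · by_cases z : d i = 0
        · tauto
        · left; exact mul_left_cancel₀ z (mul_left_cancel₀ z (by rw [h]))
      · tauto
    have h3 : (M * M) * P = (4 • M) * P := by
      rw [mul_assoc, hd, ← mul_assoc, hd, mul_assoc, h2, smul_mul_assoc, hd, mul_smul_comm]
    rw [hP.mul_left_inj, hM, ← map_mul, ← map_nsmul] at h3
    have := congrFun (congrFun h3 0) 0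
    simp only [RingHom.mapMatrix_apply, map_apply, eq_intCast, Int.cast_inj] at this
    exact absurd this (by decide)
  · have s : ∀ i, Summable fun r : ℕ => (1 : ℂ) ^ r *
        (((Int.castRingHom ℝ).mapMatrix B ^ r) i i : ℝ) / r.factorial := fun i => by
      rw [← summable_nat_add_iff 3]
      refine .of_norm_bounded ((Real.summable_pow_div_factorial 4).mul_left 16) fun r => ?_
      simp only [e, pw]
      simp
      rw [mul_comm, mul_div_assoc]
      gcongr
      omega
    rw [expDiag, expDiag, ← (s 0).sum_add_tsum_nat_add 3, ← (s 1).sum_add_tsum_nat_add 3]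
    simp only [e, pw]
    congr 1
    simp [sum_range_succ, B, sq]
    norm_num

end Pool.Agent.Results.MP_513688_co.Counter
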